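import Pool.Agent.Y283.NK.Stm
import Pool.Agent.W610.HY.Stm4
import Pool.Agent.W763.HY.LIM2
import Pool.Agent.W585.HY.OUTM
import Pool.Agent.W53.HY.POLY
import Pool.Agent.W721.HY.MEAN
import Pool.Agent.W264.HY.LTWO

/-!
# Project NK, part OUTQ: quantitative outer functions

Adapted from the proofs of LIM2 (`Pool.Agent.W763.HY.LIM2`) and OUTM (`Pool.Agent.W585.HY.OUTM`).
-/

set_option autoImplicit false

namespace Pool.Agent.Y681.NK.OUTQ

open Pool.Agent.W610.HY Pool.Agent.W763.HY.LIM2 Pool.Agent.W585.HY.OUTM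
open MeasureTheory Set Metric Filter Topology
open scoped NNReal ENNReal

/-- the limit of the partial products on the circle, quantitative form -/
theorem limq (hMEAN : MEAN) (hLTWO : LTWO) (p : ℕ → Polynomial ℂ)
    (him : ∀ k, ((p k).eval 0).im = 0)
    (hre : ∀ k (z : ℂ), ‖z‖ = 1 → 0 ≤ ((p k).eval z).re)
    (hsum : Summable (fun k => ((p k).eval 0).re)) :
    ∃ h : ℝ → ℂ, Measurable h ∧
      (∀ᵐ θ ∂(volume.restrict (Ioc (0:ℝ) (2 * Real.pi))),
        ∀ n, ‖h θ‖ ≤ ‖hh p n (circleMap 0 1 θ)‖) ∧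
      2 * Real.pi * Real.exp (-(∑' k, ((p k).eval 0).re)) ≤
        ‖∫ θ in (0:ℝ)..(2 * Real.pi), h θ‖ ∧
      ∀ a : ℕ, (∫ θ in (0:ℝ)..(2 * Real.pi), h θ * (circleMap 0 1 θ) ^ (a + 1)) = 0 := by
  have hpi : (0:ℝ) ≤ 2 * Real.pi := by positivity
  set μ : Measure ℝ := volume.restrict (Ioc (0:ℝ) (2 * Real.pi)) with hμ
  have : IsFiniteMeasure μ := by
    rw [hμ]; infer_instance
  have hint : ∀ g : ℝ → ℂ, (∫ θ in (0:ℝ)..(2 * Real.pi), g θ) = ∫ θ, g θ ∂μ := fun g => by
    rw [intervalIntegral.integral_of_le hpi]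
  have hintR : ∀ g : ℝ → ℝ, (∫ θ in (0:ℝ)..(2 * Real.pi), g θ) = ∫ θ, g θ ∂μ := fun g => by
    rw [intervalIntegral.integral_of_le hpi]
  have hμr : μ.real univ = 2 * Real.pi := by
    rw [hμ, measureReal_restrict_apply MeasurableSet.univ]
    simp [Real.volume_real_Ioc, hpi]
  -- the partial sums
  set S : ℕ → ℝ := fun n => ∑ k ∈ Finset.range n, ((p k).eval 0).re with hS
  have hStend : Tendsto S atTop (𝓝 (∑' k, ((p k).eval 0).re)) := hsum.hasSum.tendsto_sum_nat
  have hSc : CauchySeq S := hStend.cauchySeq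
  -- subsequence
  obtain ⟨φ, hφ, hφS⟩ : ∃ φ : ℕ → ℕ, StrictMono φ ∧
      ∀ j, ∀ m, φ j ≤ m → |S m - S (φ j)| < ((1:ℝ)/4) ^ j := by
    have := Filter.extraction_forall_of_eventually
      (P := fun j k => ∀ m, k ≤ m → |S m - S k| < ((1:ℝ)/4) ^ j) (by
        intro j
        obtain ⟨N, hN⟩ := Metric.cauchySeq_iff.1 hSc (((1:ℝ)/4) ^ j) (by positivity)
        filter_upwards [eventually_ge_atTop N] with k hk m hm
        have := hN m (hk.trans hm) k hk
        rwa [Real.dist_eq] at this)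
    exact this
  set F : ℕ → ℝ → ℂ := fun n θ => hh p n (circleMap 0 1 θ) with hF
  have hFc : ∀ n, Continuous (F n) := fun n => hh_continuous p n
  have hFm : ∀ n, AEStronglyMeasurable (F n) μ := fun n => (hFc n).aestronglyMeasurable
  have hFb : ∀ n θ, ‖F n θ‖ ≤ 1 := fun n θ => norm_hh_le p hre θ n
  have hFa : ∀ n m, n ≤ m → ∀ θ, ‖F m θ‖ ≤ ‖F n θ‖ := fun n m h θ => norm_hh_anti p hre θ h
  -- L1 estimate
  have key : ∀ N n m : ℕ, N ≤ n → n ≤ m →
      eLpNorm (F (φ m) - F (φ n)) 1 μ < ENNReal.ofReal (7 * Real.pi * ((1:ℝ)/2) ^ N) := by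
    intro N n m hNn hnm
    have hφnm : φ n ≤ φ m := hφ.monotone hnm
    have h2 := hLTWO p him hre (φ n) (φ m) hφnm
    rw [hintR, Finset.sum_Ico_eq_sub _ hφnm] at h2
    have h3 : S (φ m) - S (φ n) ≤ ((1:ℝ)/4) ^ N := by
      have h4 := hφS n (φ m) hφnm
      have h5 : ((1:ℝ)/4) ^ n ≤ ((1:ℝ)/4) ^ N :=
        pow_le_pow_of_le_one (by norm_num) (by norm_num) hNn
      exact (le_abs_self _).trans (h4.le.trans h5)
    have h6 : (∫ θ, ‖F (φ m) θ - F (φ n) θ‖ ^ 2 ∂μ) ≤ 4 * Real.pi * ((1:ℝ)/4) ^ N :=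
      h2.trans (mul_le_mul_of_nonneg_left h3 (by positivity))
    have hc : Continuous fun θ => F (φ m) θ - F (φ n) θ := (hFc _).sub (hFc _)
    have hb : ∀ θ, ‖F (φ m) θ - F (φ n) θ‖ ≤ 2 := fun θ =>
      (norm_sub_le _ _).trans (by linarith [hFb (φ m) θ, hFb (φ n) θ])
    have hi1 : Integrable (fun θ => ‖F (φ m) θ - F (φ n) θ‖) μ :=
      Integrable.of_bound hc.norm.aestronglyMeasurable 2
        (Eventually.of_forall fun θ => by simpa using hb θ)
    have hi2 : Integrable (fun θ => ‖F (φ m) θ - F (φ n) θ‖ ^ 2) μ :=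
      Integrable.of_bound (hc.norm.pow 2).aestronglyMeasurable 4
        (Eventually.of_forall fun θ => by
          rw [Real.norm_of_nonneg (by positivity)]
          nlinarith [hb θ, norm_nonneg (F (φ m) θ - F (φ n) θ)])
    set ε : ℝ := ((1:ℝ)/2) ^ N with hε
    have hε0 : 0 < ε := by positivity
    have hε4 : ((1:ℝ)/4) ^ N = ε ^ 2 := by
      rw [hε, ← pow_mul, mul_comm, pow_mul]; norm_num
    have h7 : (∫ θ, ‖F (φ m) θ - F (φ n) θ‖ ∂μ) ≤
        ∫ θ, (ε + ε⁻¹ * ‖F (φ m) θ - F (φ n) θ‖ ^ 2) ∂μ := by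
      refine integral_mono hi1 ((integrable_const ε).add (hi2.const_mul _)) fun θ => ?_
      have hx := norm_nonneg (F (φ m) θ - F (φ n) θ)
      set x := ‖F (φ m) θ - F (φ n) θ‖
      show x ≤ ε + ε⁻¹ * x ^ 2
      have h8 : ε * x ≤ ε * (ε + ε⁻¹ * x ^ 2) := by
        rw [mul_add, ← mul_assoc, mul_inv_cancel₀ hε0.ne']
        nlinarith [sq_nonneg (ε - x)]
      exact le_of_mul_le_mul_left h8 hε0
    rw [integral_add (integrable_const ε) (hi2.const_mul _), integral_const, integral_const_mul,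
      hμr] at h7
    have h9 : (∫ θ, ‖F (φ m) θ - F (φ n) θ‖ ∂μ) ≤ 6 * Real.pi * ε := by
      refine h7.trans ?_
      have h10 : ε⁻¹ * (∫ θ, ‖F (φ m) θ - F (φ n) θ‖ ^ 2 ∂μ) ≤ ε⁻¹ * (4 * Real.pi * ε ^ 2) :=
        mul_le_mul_of_nonneg_left (by rw [← hε4]; exact h6) (by positivity)
      have h11 : ε⁻¹ * (4 * Real.pi * ε ^ 2) = 4 * Real.pi * ε := by
        field_simp
      rw [smul_eq_mul]
      linarith
    rw [eLpNorm_one_eq_lintegral_enorm]
    have h12 : (∫⁻ θ, ‖(F (φ m) - F (φ n)) θ‖ₑ ∂μ) =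
        ENNReal.ofReal (∫ θ, ‖F (φ m) θ - F (φ n) θ‖ ∂μ) := by
      have hi3 : Integrable (fun θ => F (φ m) θ - F (φ n) θ) μ :=
        Integrable.of_bound hc.aestronglyMeasurable 2 (Eventually.of_forall hb)
      rw [ofReal_integral_norm_eq_lintegral_enorm hi3]
      rfl
    rw [h12]
    refine (ENNReal.ofReal_lt_ofReal_iff (by positivity)).2 ?_
    have : 6 * Real.pi * ε < 7 * Real.pi * ε := by nlinarith [Real.pi_pos]
    exact h9.trans_lt this
  have hae : ∀ᵐ θ ∂μ, ∃ l : ℂ, Tendsto (fun j => F (φ j) θ) atTop (𝓝 l) := by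
    refine Lp.ae_tendsto_of_cauchy_eLpNorm (p := 1)
      (B := fun N => ENNReal.ofReal (7 * Real.pi * ((1:ℝ)/2) ^ N))
      (fun j => hFm (φ j)) le_rfl ?_ ?_
    · exact Summable.tsum_ofReal_ne_top
        ((summable_geometric_of_lt_one (by norm_num) (by norm_num)).mul_left _)
    · intro N n m hn hm
      rcases le_total n m with h | h
      · rw [eLpNorm_sub_comm]
        exact key N n m hn h
      · exact key N m n hm h
  obtain ⟨h, hmeas, hlim⟩ := measurable_limit_of_tendsto_metrizable_ae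
    (fun j => (hFm (φ j)).aemeasurable) hae
  refine ⟨h, hmeas, ?_, ?_, ?_⟩
  · filter_upwards [hlim] with θ hθ n
    refine le_of_tendsto hθ.norm ?_
    filter_upwards [eventually_ge_atTop n] with j hj
    exact hFa n (φ j) (hj.trans (hφ.id_le j)) θ
  · have hdc : Tendsto (fun j => ∫ θ, F (φ j) θ ∂μ) atTop (𝓝 (∫ θ, h θ ∂μ)) := by
      refine tendsto_integral_of_dominated_convergence (fun _ => (1:ℝ))
        (fun j => (hFc (φ j)).aestronglyMeasurable) (integrable_const _)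
        (fun j => Eventually.of_forall fun θ => hFb _ _) hlim
    have hval : ∀ j, (∫ θ, F (φ j) θ ∂μ) = 2 * Real.pi * hh p (φ j) 0 := by
      intro j
      rw [← hint]
      exact (hMEAN (hh p (φ j)) (hh_differentiable p _)).1
    have hre0 : ∀ k, 0 ≤ ((p k).eval 0).re := by
      intro k
      have h1 := re_mean hMEAN (p k)
      have hpi' : 0 < 2 * Real.pi := by positivity
      have h2 : 0 ≤ ∫ θ in (0:ℝ)..(2 * Real.pi), ((p k).eval (circleMap 0 1 θ)).re :=
        intervalIntegral.integral_nonneg hpi fun θ _ => hre k _ (cnorm θ)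
      rw [h1] at h2
      exact nonneg_of_mul_nonneg_right h2 hpi'
    set T : ℝ := ∑' k, ((p k).eval 0).re with hT
    have hST : ∀ n, S n ≤ T := fun n => hsum.sum_le_tsum _ fun k _ => hre0 k
    have hlow : ∀ n, Real.exp (-T) ≤ ‖hh p n 0‖ := by
      intro n
      rw [norm_hh]
      exact Real.exp_le_exp.2 (neg_le_neg (hST n))
    rw [hint]
    refine ge_of_tendsto hdc.norm (Eventually.of_forall fun j => ?_)
    rw [hval j, norm_mul, norm_mul]
    have h1 : ‖(2:ℂ)‖ * ‖(Real.pi : ℂ)‖ = 2 * Real.pi := by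
      rw [Complex.norm_real, Real.norm_of_nonneg Real.pi_pos.le]
      simp
    rw [h1]
    exact mul_le_mul_of_nonneg_left (hlow _) (by positivity)
  · intro a
    have hck : Continuous fun θ : ℝ => (circleMap 0 1 θ) ^ (a + 1) :=
      (continuous_circleMap 0 1).pow _
    have hdc : Tendsto (fun j => ∫ θ, F (φ j) θ * (circleMap 0 1 θ) ^ (a + 1) ∂μ)
        atTop (𝓝 (∫ θ, h θ * (circleMap 0 1 θ) ^ (a + 1) ∂μ)) := by
      refine tendsto_integral_of_dominated_convergence (fun _ => (1:ℝ))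
        (fun j => ((hFc (φ j)).mul hck).aestronglyMeasurable) (integrable_const _)
        (fun j => Eventually.of_forall fun θ => ?_) ?_
      · rw [norm_mul, norm_pow, cnorm, one_pow, mul_one]
        exact hFb _ _
      · filter_upwards [hlim] with θ hθ
        exact hθ.mul_const _
    have hzero : ∀ j, (∫ θ, F (φ j) θ * (circleMap 0 1 θ) ^ (a + 1) ∂μ) = 0 := by
      intro j
      rw [← hint]
      have h1 := (hMEAN (fun z => hh p (φ j) z * z ^ (a + 1))
        ((hh_differentiable p _).mul (differentiable_id.pow _))).1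
      rw [zero_pow (Nat.succ_ne_zero a), mul_zero, mul_zero] at h1
      exact h1
    simp_rw [hzero] at hdc
    rw [hint]
    exact (tendsto_nhds_unique hdc tendsto_const_nhds)

/-- **Quantitative outer functions on the circle.** -/
theorem main_of (hPOLY : POLY) (hMEAN : MEAN) (hLTWO : LTWO) : Pool.Agent.Y283.NK.S_OUTQ := by
  intro B
  refine ⟨2 * Real.pi * Real.exp (-(((B : ℝ) + 5 + 4 * Real.pi) / (2 * Real.pi))), by positivity,
    fun m hm hiB => ?_⟩
  have hi : (∫⁻ θ in Ioc (0:ℝ) (2 * Real.pi), m θ) ≠ ⊤ := ne_top_of_le_ne_top ENNReal.coe_ne_top hiB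
  have hpi : (0:ℝ) < 2 * Real.pi := by positivity
  obtain ⟨μ, hμ⟩ : ∃ μ : Measure ℝ, μ = volume.restrict (Ioc (0:ℝ) (2 * Real.pi)) := ⟨_, rfl⟩
  have hμf : IsFiniteMeasure μ := by rw [hμ]; infer_instance
  have hcm : Measurable (circleMap 0 1) := (continuous_circleMap 0 1).measurable
  obtain ⟨M, hM⟩ : ∃ M : ℂ → ℝ, M = fun z => (m (tt z)).toReal := ⟨_, rfl⟩
  have hMm : Measurable M := by rw [hM]; exact (hm.comp measurable_tt).ennreal_toReal
  have hMc : ∀ θ ∈ Ioc (0:ℝ) (2 * Real.pi), M (circleMap 0 1 θ) = (m θ).toReal := by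
    intro θ hθ
    rw [hM]
    simp only [tt_c hθ]
  have hMi : Integrable (fun θ => M (circleMap 0 1 θ)) μ := by
    have h1 : Integrable (fun θ => (m θ).toReal) μ := by
      rw [hμ]
      exact integrable_toReal_of_lintegral_ne_top hm.aemeasurable hi
    apply h1.congr
    rw [hμ]
    filter_upwards [ae_restrict_mem measurableSet_Ioc] with θ hθ
    rw [hMc θ hθ]
  obtain ⟨ν, hν⟩ : ∃ ν : Measure ℂ, ν = μ.map (circleMap 0 1) := ⟨_, rfl⟩
  have hνf : IsFiniteMeasure ν := by rw [hν]; infer_instance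
  have hMν : Integrable M ν := by
    rw [hν]
    exact (integrable_map_measure hMm.aestronglyMeasurable hcm.aemeasurable).2 hMi
  choose g hg hgi using fun k : ℕ => hMν.exists_boundedContinuous_integral_sub_le
    (ε := (1 / 2 : ℝ) ^ k) (by positivity)
  have hgc : ∀ k, Continuous (fun z => g k z) := fun k => (g k).continuous
  obtain ⟨G, hG⟩ : ∃ G : ℕ → ℂ → ℝ, G = fun k z => g k z := ⟨_, rfl⟩
  have hGc : ∀ k, Continuous (G k) := fun k => by rw [hG]; exact hgc k
  have hGi : ∀ k, Integrable (G k) ν := fun k => by rw [hG]; exact hgi k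
  have hGM : ∀ k, ∫ z, ‖M z - G k z‖ ∂ν ≤ (1 / 2 : ℝ) ^ k := fun k => by rw [hG]; exact hg k
  have hMG : ∀ k, Integrable (fun z => M z - G k z) ν := fun k => hMν.sub (hGi k)
  have hMGn : ∀ k, Integrable (fun z => ‖M z - G k z‖) ν := fun k => (hMG k).norm
  -- the integrals of the terms
  have hfi : ∀ k, ∫ z, ff G (k + 1) z ∂ν ≤ 2 * (1 / 2 : ℝ) ^ k := by
    intro k
    have h1 : ∫ z, ff G (k + 1) z ∂ν ≤ ∫ z, (‖M z - G (k + 1) z‖ + ‖M z - G k z‖) ∂ν := by
      apply integral_mono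
      · exact ((hGi (k + 1)).sub (hGi k)).abs
      · exact (hMGn (k + 1)).add (hMGn k)
      · intro z
        change |G (k + 1) z - G k z| ≤ |M z - G (k + 1) z| + |M z - G k z|
        have h2 : G (k + 1) z - G k z = -(M z - G (k + 1) z) + (M z - G k z) := by ring
        rw [h2]
        exact (abs_add_le _ _).trans (by rw [abs_neg])
    rw [integral_add (hMGn (k + 1)) (hMGn k)] at h1
    have h3 := hGM (k + 1)
    have h4 := hGM k
    have h5 : (1 / 2 : ℝ) ^ (k + 1) = (1 / 2) * (1 / 2 : ℝ) ^ k := by rw [pow_succ]; ring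
    have h6 : (0:ℝ) < (1 / 2 : ℝ) ^ k := by positivity
    rw [h5] at h3
    linarith
  have hfν : ∀ k, ∫ θ in (0:ℝ)..(2 * Real.pi), ff G k (circleMap 0 1 θ) = ∫ z, ff G k z ∂ν := by
    intro k
    rw [intervalIntegral.integral_of_le hpi.le, ← hμ, hν,
      integral_map hcm.aemeasurable (ff_cont G hGc k).aestronglyMeasurable]
  choose p hp0 hp1 using fun k : ℕ => hPOLY (fun z => ff G k z)
    (ff_cont G hGc k).continuousOn ((1 / 2 : ℝ) ^ k) (by positivity)
  have hre : ∀ k (z : ℂ), ‖z‖ = 1 → 0 ≤ ((p k).eval z).re := by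
    intro k z hz
    have h1 := (hp1 k z hz).1
    have h2 := ff_nonneg G k z
    linarith
  have hpc : ∀ k, Continuous (fun θ : ℝ => ((p k).eval (circleMap 0 1 θ)).re) := fun k =>
    Complex.continuous_re.comp ((p k).continuous.comp (continuous_circleMap 0 1))
  have h0 : ∀ k, 0 ≤ ((p k).eval 0).re := by
    intro k
    have h1 := re_mean hMEAN (p k)
    have h2 : 0 ≤ ∫ θ in (0:ℝ)..(2 * Real.pi), ((p k).eval (circleMap 0 1 θ)).re :=
      intervalIntegral.integral_nonneg hpi.le fun θ _ => hre k _ (cnorm θ)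
    rw [h1] at h2
    exact nonneg_of_mul_nonneg_right h2 hpi
  have hk : ∀ k, 2 * Real.pi * ((p k).eval 0).re
      ≤ (∫ z, ff G k z ∂ν) + 2 * Real.pi * (1 / 2 : ℝ) ^ k := by
    intro k
    rw [← re_mean hMEAN (p k), ← hfν k]
    have i1 : IntervalIntegrable (fun θ : ℝ => ff G k (circleMap 0 1 θ)) volume 0 (2 * Real.pi) :=
      ((ff_cont G hGc k).comp (continuous_circleMap 0 1)).intervalIntegrable 0 (2 * Real.pi)
    have e1 : (∫ θ in (0:ℝ)..(2 * Real.pi), (ff G k (circleMap 0 1 θ) + (1 / 2 : ℝ) ^ k))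
        = (∫ θ in (0:ℝ)..(2 * Real.pi), ff G k (circleMap 0 1 θ))
        + 2 * Real.pi * (1 / 2 : ℝ) ^ k := by
      rw [intervalIntegral.integral_add i1 intervalIntegrable_const,
        intervalIntegral.integral_const]
      simp
    rw [← e1]
    apply intervalIntegral.integral_mono_on hpi.le
    · exact (hpc k).intervalIntegrable 0 (2 * Real.pi)
    · exact i1.add intervalIntegrable_const
    · intro θ _
      exact (hp1 k _ (cnorm θ)).2
  have hS : Summable (fun k => ((p k).eval 0).re) := by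
    rw [← summable_nat_add_iff 1]
    refine Summable.of_nonneg_of_le (fun k => h0 (k + 1))
      (f := fun k => (2 + 2 * Real.pi) / (2 * Real.pi) * (1 / 2 : ℝ) ^ k) (fun k => ?_)
      (summable_geometric_two.mul_left _)
    have h1 := hk (k + 1)
    have h2 := hfi k
    have h5 : (1 / 2 : ℝ) ^ (k + 1) = (1 / 2) * (1 / 2 : ℝ) ^ k := by rw [pow_succ]; ring
    have h6 : (0:ℝ) < (1 / 2 : ℝ) ^ k := by positivity
    rw [h5] at h1
    have h7 : ((p (k + 1)).eval 0).re * (2 * Real.pi) ≤ (2 + 2 * Real.pi) * (1 / 2 : ℝ) ^ k := by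
      nlinarith
    have h8 := (le_div_iff₀ hpi).2 h7
    calc ((p (k + 1)).eval 0).re ≤ (2 + 2 * Real.pi) * (1 / 2 : ℝ) ^ k / (2 * Real.pi) := h8
      _ = (2 + 2 * Real.pi) / (2 * Real.pi) * (1 / 2 : ℝ) ^ k := by ring
  -- the bound for the sum
  have hMint : ∫ z, M z ∂ν ≤ B := by
    rw [hν, integral_map hcm.aemeasurable hMm.aestronglyMeasurable]
    have h1 : ∫ θ, M (circleMap 0 1 θ) ∂μ = ∫ θ, (m θ).toReal ∂μ := by
      refine integral_congr_ae ?_
      rw [hμ]
      filter_upwards [ae_restrict_mem measurableSet_Ioc] with θ hθ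
      exact hMc θ hθ
    rw [h1, integral_toReal hm.aemeasurable (by rw [hμ]; exact ae_lt_top hm hi)]
    rw [hμ]
    exact ENNReal.toReal_le_coe_of_le_coe hiB
  have hM0 : ∀ z, 0 ≤ M z := by
    intro z
    rw [hM]
    exact ENNReal.toReal_nonneg
  have hf0 : ∫ z, ff G 0 z ∂ν ≤ B + 1 := by
    have h1 : ∫ z, ff G 0 z ∂ν ≤ ∫ z, (M z + ‖M z - G 0 z‖) ∂ν := by
      apply integral_mono
      · exact (hGi 0).abs
      · exact hMν.add (hMGn 0)
      · intro z
        change |G 0 z| ≤ M z + |M z - G 0 z|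
        have h2 : G 0 z = M z + -(M z - G 0 z) := by ring
        calc |G 0 z| = |M z + -(M z - G 0 z)| := by rw [← h2]
          _ ≤ |M z| + |-(M z - G 0 z)| := abs_add_le _ _
          _ = M z + |M z - G 0 z| := by rw [abs_neg, abs_of_nonneg (hM0 z)]
    rw [integral_add hMν (hMGn 0)] at h1
    have h3 := hGM 0
    rw [pow_zero] at h3
    linarith
  have hT : ∑' k, ((p k).eval 0).re ≤ ((B : ℝ) + 5 + 4 * Real.pi) / (2 * Real.pi) := by
    rw [le_div_iff₀ hpi, hS.tsum_eq_zero_add, add_mul]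
    have t0 : ((p 0).eval 0).re * (2 * Real.pi) ≤ B + 1 + 2 * Real.pi := by
      have := hk 0
      rw [pow_zero] at this
      linarith
    have t1 : (∑' k, ((p (k + 1)).eval 0).re) * (2 * Real.pi) ≤ 4 + 2 * Real.pi := by
      rw [← tsum_mul_right]
      have h1 : ∀ k, ((p (k + 1)).eval 0).re * (2 * Real.pi) ≤
          (2 + Real.pi) * (1 / 2 : ℝ) ^ k := by
        intro k
        have h1 := hk (k + 1)
        have h2 := hfi k
        have h5 : (1 / 2 : ℝ) ^ (k + 1) = (1 / 2) * (1 / 2 : ℝ) ^ k := by rw [pow_succ]; ring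
        rw [h5] at h1
        linarith
      have hS1 : Summable fun k => ((p (k + 1)).eval 0).re := (summable_nat_add_iff 1).2 hS
      have h2 := (hS1.mul_right (2 * Real.pi)).tsum_le_tsum h1
        (summable_geometric_two.mul_left (2 + Real.pi))
      rw [tsum_mul_left, tsum_geometric_two] at h2
      linarith
    linarith
  obtain ⟨h, hmeas, hle, hne, hvan⟩ := limq hMEAN hLTWO p hp0 hre hS
  refine ⟨h, hmeas, ?_, ?_, hvan⟩
  swap
  · refine le_trans ?_ hne
    exact mul_le_mul_of_nonneg_left (Real.exp_le_exp.2 (neg_le_neg hT)) hpi.le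
  have htop := ae_lt_top hm hi
  -- convergence almost everywhere
  have hconv : ∀ᵐ z ∂ν, Tendsto (fun n => G n z) atTop (𝓝 (M z)) := by
    have h1 : ∫⁻ z, ∑' n, ‖M z - G n z‖ₑ ∂ν ≠ ⊤ := by
      have hen : ∀ n, AEMeasurable (fun z => ‖M z - G n z‖ₑ) ν := fun n =>
        (hMG n).aestronglyMeasurable.enorm
      rw [lintegral_tsum hen]
      have h2 : ∀ n, ∫⁻ z, ‖M z - G n z‖ₑ ∂ν ≤ ENNReal.ofReal ((1 / 2 : ℝ) ^ n) := by
        intro n
        have h3 := ofReal_integral_norm_eq_lintegral_enorm (hMG n)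
        have h4 : ∫⁻ z, ‖M z - G n z‖ₑ ∂ν = ENNReal.ofReal (∫ z, ‖M z - G n z‖ ∂ν) := h3.symm
        rw [h4]
        exact ENNReal.ofReal_le_ofReal (hGM n)
      have h5 : ∑' n : ℕ, ENNReal.ofReal ((1 / 2 : ℝ) ^ n) ≠ ⊤ := by
        rw [← ENNReal.ofReal_tsum_of_nonneg (fun n => by positivity) summable_geometric_two]
        exact ENNReal.ofReal_ne_top
      exact ne_top_of_le_ne_top h5 (ENNReal.tsum_le_tsum h2)
    have h6 : AEMeasurable (fun z => ∑' n, ‖M z - G n z‖ₑ) ν :=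
      AEMeasurable.ennreal_tsum fun n => (hMG n).aestronglyMeasurable.enorm
    filter_upwards [ae_lt_top' h6 h1] with z hz
    have h7 := ENNReal.tendsto_atTop_zero_of_tsum_ne_top hz.ne
    have h8 : Tendsto (fun n => ‖M z - G n z‖) atTop (𝓝 0) := by
      have h9 := (ENNReal.tendsto_toReal ENNReal.zero_ne_top).comp h7
      simpa [Function.comp_def] using h9
    rw [tendsto_iff_norm_sub_tendsto_zero]
    refine h8.congr fun n => ?_
    rw [norm_sub_rev]
  have hconv' : ∀ᵐ θ ∂μ, Tendsto (fun n => G n (circleMap 0 1 θ)) atTop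
      (𝓝 (M (circleMap 0 1 θ))) := by
    rw [hν] at hconv
    exact ae_of_ae_map hcm.aemeasurable hconv
  rw [hμ] at hconv'
  filter_upwards [hle, htop, hconv', ae_restrict_mem measurableSet_Ioc] with θ h1 h2 h3 h4
  refine ⟨h2.ne, ?_⟩
  rw [hMc θ h4] at h3
  have h5 : ∀ n, ‖h θ‖ ≤ Real.exp (-(G n (circleMap 0 1 θ))) := by
    intro n
    refine (h1 (n + 1)).trans ?_
    unfold hh
    rw [Complex.norm_exp]
    apply Real.exp_le_exp.2
    rw [Complex.neg_re, Complex.re_sum, neg_le_neg_iff]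
    refine (ff_sum G n _).trans ?_
    exact Finset.sum_le_sum fun k _ => (hp1 k _ (cnorm θ)).1
  have h6 : Tendsto (fun n => Real.exp (-(G n (circleMap 0 1 θ)))) atTop
      (𝓝 (Real.exp (-(m θ).toReal))) :=
    (Real.continuous_exp.tendsto _).comp h3.neg
  exact ge_of_tendsto' h6 h5

theorem main : Pool.Agent.Y283.NK.S_OUTQ :=
  main_of Pool.Agent.W53.HY.POLY.main Pool.Agent.W721.HY.MEAN.main Pool.Agent.W264.HY.LTWO.main

end Pool.Agent.Y681.NK.OUTQ
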